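import Mathlib

/-!
Local lemmas for the complete 2-descent on `y^2 = x (x - A) (x - B)`.
-/

set_option autoImplicit false

namespace Pool.Agent.LEG

/-- squarefree part of an integer -/
theorem exists_sqf (n : ℤ) (hn : n ≠ 0) : ∃ d u : ℤ, n = d * u ^ 2 ∧ Squarefree d ∧ u ≠ 0 := by
  obtain ⟨a, b, hab, ha⟩ := Nat.sq_mul_squarefree n.natAbs
  have hb : b ≠ 0 := by
    rintro rfl
    apply hn
    rw [← Int.natAbs_eq_zero, ← hab]
    simp
  refine ⟨n.sign * a, b, ?_, ?_, by exact_mod_cast hb⟩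
  · have h1 : n = n.sign * n.natAbs := (Int.sign_mul_natAbs n).symm
    rw [← hab] at h1
    push_cast at h1
    linear_combination h1
  · rw [← Int.squarefree_natAbs, Int.natAbs_mul, Int.natAbs_sign_of_ne_zero hn, one_mul,
      Int.natAbs_natCast]
    exact ha

/-- three squarefree numbers whose product is a square -/
structure Tri (d1 d2 d3 : ℤ) : Prop where
  s1 : Squarefree d1
  s2 : Squarefree d2
  s3 : Squarefree d3
  sq : ∃ t : ℤ, d1 * d2 * d3 = t ^ 2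

theorem Tri.rot {d1 d2 d3 : ℤ} (h : Tri d1 d2 d3) : Tri d2 d3 d1 :=
  ⟨h.s2, h.s3, h.s1, by obtain ⟨t, ht⟩ := h.sq; exact ⟨t, by linear_combination ht⟩⟩

theorem Tri.swap {d1 d2 d3 : ℤ} (h : Tri d1 d2 d3) : Tri d2 d1 d3 :=
  ⟨h.s2, h.s1, h.s3, by obtain ⟨t, ht⟩ := h.sq; exact ⟨t, by linear_combination ht⟩⟩

theorem sq_not_dvd {d π : ℤ} (hd : Squarefree d) (hπ : Prime π) : ¬ π ^ 2 ∣ d := by
  intro h
  rw [pow_two] at h
  exact hπ.not_isUnit (hd π h)

/-- a prime dividing the first divides exactly one of the two others -/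
theorem Tri.dvd {d1 d2 d3 : ℤ} (h : Tri d1 d2 d3) {π : ℤ} (hπ : Prime π) (h1 : π ∣ d1) :
    (π ∣ d2 ∧ ¬ π ∣ d3) ∨ (¬ π ∣ d2 ∧ π ∣ d3) := by
  obtain ⟨t, ht⟩ := h.sq
  have h2 : π ∣ t := by
    apply hπ.dvd_of_dvd_pow (n := 2)
    rw [← ht, mul_assoc]
    exact h1.mul_right _
  have h3 : π ^ 2 ∣ d1 * (d2 * d3) := by
    rw [← mul_assoc, ht]
    exact pow_dvd_pow_of_dvd h2 2
  obtain ⟨a, ha⟩ := h1
  have ha' : ¬ π ∣ a := fun h' => sq_not_dvd h.s1 hπ (by
    rw [ha, pow_two]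
    exact mul_dvd_mul_left _ h')
  by_cases h4 : π ∣ d2
  · left
    refine ⟨h4, fun h5 => ?_⟩
    obtain ⟨b, hb⟩ := h4
    obtain ⟨c, hc⟩ := h5
    have hb' : ¬ π ∣ b := fun h' => sq_not_dvd h.s2 hπ (by
      rw [hb, pow_two]
      exact mul_dvd_mul_left _ h')
    have hc' : ¬ π ∣ c := fun h' => sq_not_dvd h.s3 hπ (by
      rw [hc, pow_two]
      exact mul_dvd_mul_left _ h')
    obtain ⟨s, hs⟩ := h2
    have h6 : π * (a * b * c) = s ^ 2 := by
      have h7 : π ^ 2 * (π * (a * b * c)) = π ^ 2 * s ^ 2 := by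
        rw [ha, hb, hc, hs] at ht
        linear_combination ht
      exact mul_left_cancel₀ (pow_ne_zero 2 hπ.ne_zero) h7
    have h7 : π ∣ s := by
      apply hπ.dvd_of_dvd_pow (n := 2)
      rw [← h6]
      exact dvd_mul_right _ _
    obtain ⟨v, hv⟩ := h7
    have h8 : a * b * c = π * v ^ 2 := by
      have h9 : π * (a * b * c) = π * (π * v ^ 2) := by
        rw [h6, hv]
        ring
      exact mul_left_cancel₀ hπ.ne_zero h9
    have h9 : π ∣ a * b * c := ⟨_, h8⟩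
    rcases hπ.dvd_or_dvd h9 with h10 | h10
    · rcases hπ.dvd_or_dvd h10 with h11 | h11
      · exact ha' h11
      · exact hb' h11
    · exact hc' h10
  · right
    refine ⟨h4, ?_⟩
    by_contra h5
    have h6 : ¬ π ∣ d2 * d3 := fun h' => (hπ.dvd_or_dvd h').elim h4 h5
    rw [ha, pow_two, mul_assoc] at h3
    have h7 := (mul_dvd_mul_iff_left hπ.ne_zero).1 h3
    exact (hπ.dvd_or_dvd h7).elim ha' h6

/-- if the product of the Legendre symbols is known -/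
theorem Tri.leg {d1 d2 d3 : ℤ} (h : Tri d1 d2 d3) {p : ℕ} [Fact p.Prime] (h1 : ¬ (p : ℤ) ∣ d1)
    (h2 : ¬ (p : ℤ) ∣ d2) (h3 : ¬ (p : ℤ) ∣ d3) :
    legendreSym p d1 * legendreSym p d2 * legendreSym p d3 = 1 := by
  obtain ⟨t, ht⟩ := h.sq
  have hp : Prime (p : ℤ) := Nat.prime_iff_prime_int.1 (Fact.out)
  have h4 : ¬ (p : ℤ) ∣ t := by
    intro h'
    have : (p : ℤ) ∣ d1 * d2 * d3 := by
      rw [ht, pow_two]
      exact h'.mul_right _
    rcases hp.dvd_or_dvd this with h5 | h5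
    · exact (hp.dvd_or_dvd h5).elim h1 h2
    · exact h3 h5
  rw [← legendreSym.mul, ← legendreSym.mul, ht]
  apply legendreSym.sq_one'
  rwa [Ne, ZMod.intCast_zmod_eq_zero_iff_dvd]

variable {p : ℕ} [Fact p.Prime]

theorem leg_sq {u : ℤ} (h : ¬ (p : ℤ) ∣ u) (a : ℤ) :
    legendreSym p (a * u ^ 2) = legendreSym p a := by
  rw [legendreSym.mul, legendreSym.sq_one' p (by
    rwa [Ne, ZMod.intCast_zmod_eq_zero_iff_dvd]), mul_one]

theorem leg_congr {a b : ℤ} (h : (p : ℤ) ∣ a - b) : legendreSym p a = legendreSym p b := by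
  unfold legendreSym
  congr 1
  have := (ZMod.intCast_eq_intCast_iff_dvd_sub b a p).2 h
  exact this.symm

theorem leg_ne {a : ℤ} (h : ¬ (p : ℤ) ∣ a) : legendreSym p a = 1 ∨ legendreSym p a = -1 := by
  apply legendreSym.eq_one_or_neg_one
  rwa [Ne, ZMod.intCast_zmod_eq_zero_iff_dvd]

/-- `F = dF u^2`, `G = dG w^2`, `H = dH v^2` with `F - G = D Z^2`, `F - H = E Z^2` -/
structure Pt (F G H D E Z dF dG dH u w v : ℤ) : Prop where
  t : Tri dF dG dH
  f : F = dF * u ^ 2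
  g : G = dG * w ^ 2
  h : H = dH * v ^ 2
  fg : F - G = D * Z ^ 2
  fh : F - H = E * Z ^ 2
  co : IsCoprime F Z

variable {F G H D E Z dF dG dH u w v : ℤ}

theorem Pt.swap (h : Pt F G H D E Z dF dG dH u w v) :
    Pt F H G E D Z dF dH dG u v w :=
  ⟨h.t.swap.rot, h.f, h.h, h.g, h.fh, h.fg, h.co⟩

theorem Pt.rot (h : Pt F G H D E Z dF dG dH u w v) :
    Pt G F H (-D) (E - D) Z dG dF dH w u v :=
  ⟨h.t.swap, h.g, h.f, h.h, by linear_combination -h.fg, by linear_combination h.fh - h.fg, by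
    have e : G = F + (-D * Z) * Z := by linear_combination -h.fg
    rw [e]
    exact (IsCoprime.add_mul_right_left_iff).2 h.co⟩

theorem notZ (h : Pt F G H D E Z dF dG dH u w v) {π : ℤ} (hπ : Prime π) (hF : π ∣ F) :
    ¬ π ∣ Z := fun hZ => hπ.not_isUnit (h.co.isUnit_of_dvd' hF hZ)

/-- common divisors -/
theorem Pt.cdvd (h : Pt F G H D E Z dF dG dH u w v) {π : ℤ} (hπ : Prime π) (hF : π ∣ dF)
    (hG : π ∣ dG) : π ∣ D := by
  have h1 : π ∣ F := by rw [h.f]; exact hF.mul_right _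
  have h2 : π ∣ G := by rw [h.g]; exact hG.mul_right _
  have h3 : π ∣ D * Z ^ 2 := by rw [← h.fg]; exact dvd_sub h1 h2
  rcases hπ.dvd_or_dvd h3 with h4 | h4
  · exact h4
  · exact absurd (hπ.dvd_of_dvd_pow h4) (notZ h hπ h1)

/-- a multiplicative place -/
theorem mult (h : Pt F G H D E Z dF dG dH u w v) (hD : (p : ℤ) ∣ D) (hD2 : ¬ (p : ℤ) ^ 2 ∣ D)
    (hE : ¬ (p : ℤ) ∣ E) :
    ¬ (p : ℤ) ∣ dH ∧ ((¬ (p : ℤ) ∣ dF ∧ ¬ (p : ℤ) ∣ dG ∧ legendreSym p dH = 1) ∨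
      ((p : ℤ) ∣ dF ∧ (p : ℤ) ∣ dG ∧ legendreSym p dH = legendreSym p (-E))) := by
  have hp : Prime (p : ℤ) := Nat.prime_iff_prime_int.1 (Fact.out)
  have hFH : (p : ℤ) ∣ dF → (p : ℤ) ∣ dH → False := fun h1 h2 => hE (h.swap.cdvd hp h1 h2)
  have hGH : (p : ℤ) ∣ dG → (p : ℤ) ∣ dH → False := fun h1 h2 => by
    have h3 := h.rot.swap.cdvd hp h1 h2
    exact hE (by have := dvd_add h3 hD; rwa [sub_add_cancel] at this)
  have hH : ¬ (p : ℤ) ∣ dH := by
    intro h1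
    rcases h.t.rot.rot.dvd hp h1 with ⟨h2, _⟩ | ⟨_, h2⟩
    · exact hFH h2 h1
    · exact hGH h2 h1
  refine ⟨hH, ?_⟩
  by_cases hF : (p : ℤ) ∣ dF
  · right
    rcases h.t.dvd hp hF with ⟨h2, _⟩ | ⟨_, h2⟩
    · refine ⟨hF, h2, ?_⟩
      have h1 : (p : ℤ) ∣ F := by rw [h.f]; exact hF.mul_right _
      have hZ := notZ h hp h1
      have h3 : (p : ℤ) ∣ dH * v ^ 2 - (-E) * Z ^ 2 := by
        have : dH * v ^ 2 - (-E) * Z ^ 2 = F := by rw [← h.h]; linear_combination -h.fh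
        rw [this]
        exact h1
      have h4 := leg_congr h3
      rw [leg_sq hZ] at h4
      rw [← h4, leg_sq]
      intro h5
      have h6 : (p : ℤ) ∣ E * Z ^ 2 := by
        rw [← h.fh, h.h]
        exact dvd_sub h1 ((dvd_pow h5 two_ne_zero).mul_left _)
      rcases hp.dvd_or_dvd h6 with h7 | h7
      · exact hE h7
      · exact hZ (hp.dvd_of_dvd_pow h7)
    · exact absurd h2 hH
  · left
    have hG : ¬ (p : ℤ) ∣ dG := by
      intro h1
      rcases h.t.rot.dvd hp h1 with ⟨h2, _⟩ | ⟨_, h2⟩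
      · exact hH h2
      · exact hF h2
    refine ⟨hF, hG, ?_⟩
    have hprod := h.t.leg hF hG hH
    by_cases h1 : (p : ℤ) ∣ F
    · exfalso
      have hZ := notZ h hp h1
      have h2 : (p : ℤ) ∣ u := by
        rw [h.f] at h1
        rcases hp.dvd_or_dvd h1 with h3 | h3
        · exact absurd h3 hF
        · exact hp.dvd_of_dvd_pow h3
      have h3 : (p : ℤ) ^ 2 ∣ F := by
        rw [h.f]
        exact (pow_dvd_pow_of_dvd h2 2).mul_left _
      have h4 : (p : ℤ) ∣ G := by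
        have : G = F - D * Z ^ 2 := by linear_combination -h.fg
        rw [this]
        exact dvd_sub h1 (hD.mul_right _)
      have h5 : (p : ℤ) ∣ w := by
        rw [h.g] at h4
        rcases hp.dvd_or_dvd h4 with h3 | h3
        · exact absurd h3 hG
        · exact hp.dvd_of_dvd_pow h3
      have h6 : (p : ℤ) ^ 2 ∣ G := by
        rw [h.g]
        exact (pow_dvd_pow_of_dvd h5 2).mul_left _
      have h7 : (p : ℤ) ^ 2 ∣ D * Z ^ 2 := by
        rw [← h.fg]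
        exact dvd_sub h3 h6
      apply hD2
      have h8 : IsCoprime ((p : ℤ) ^ 2) (Z ^ 2) :=
        IsCoprime.pow ((Prime.coprime_iff_not_dvd hp).2 hZ)
      exact h8.dvd_of_dvd_mul_right h7
    · have h2 : ¬ (p : ℤ) ∣ u := fun h3 => h1 (by
        rw [h.f]; exact (dvd_pow h3 two_ne_zero).mul_left _)
      have h3 : (p : ℤ) ∣ F - G := by rw [h.fg]; exact hD.mul_right _
      have h4 : ¬ (p : ℤ) ∣ w := fun h5 => h1 (by
        have h6 : (p : ℤ) ∣ G := by rw [h.g]; exact (dvd_pow h5 two_ne_zero).mul_left _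
        have := dvd_add h3 h6
        rwa [sub_add_cancel] at this)
      have h5 := leg_congr h3
      rw [h.f, h.g, leg_sq h2, leg_sq h4] at h5
      rcases leg_ne hG with h6 | h6 <;> rw [h5, h6] at hprod <;> linarith

/-- a twisted place, trivial valuations -/
theorem tw0 (h : Pt F G H D E Z dF dG dH u w v) (hD : (p : ℤ) ∣ D) (hE : (p : ℤ) ∣ E)
    (hE2 : ¬ (p : ℤ) ^ 2 ∣ E) (hF : ¬ (p : ℤ) ∣ dF) (hG : ¬ (p : ℤ) ∣ dG)
    (hH : ¬ (p : ℤ) ∣ dH) :
    legendreSym p dF = 1 ∧ legendreSym p dG = 1 ∧ legendreSym p dH = 1 := by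
  have hp : Prime (p : ℤ) := Nat.prime_iff_prime_int.1 (Fact.out)
  have hprod := h.t.leg hF hG hH
  have hu : ¬ (p : ℤ) ∣ F := by
    intro h1
    have hZ := notZ h hp h1
    have h2 : (p : ℤ) ∣ u := by
      rw [h.f] at h1
      rcases hp.dvd_or_dvd h1 with h3 | h3
      · exact absurd h3 hF
      · exact hp.dvd_of_dvd_pow h3
    have h3 : (p : ℤ) ^ 2 ∣ F := by
      rw [h.f]
      exact (pow_dvd_pow_of_dvd h2 2).mul_left _
    have h4 : (p : ℤ) ∣ H := by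
      have : H = F - E * Z ^ 2 := by linear_combination -h.fh
      rw [this]
      exact dvd_sub h1 (hE.mul_right _)
    have h5 : (p : ℤ) ∣ v := by
      rw [h.h] at h4
      rcases hp.dvd_or_dvd h4 with h3 | h3
      · exact absurd h3 hH
      · exact hp.dvd_of_dvd_pow h3
    have h6 : (p : ℤ) ^ 2 ∣ H := by
      rw [h.h]
      exact (pow_dvd_pow_of_dvd h5 2).mul_left _
    have h7 : (p : ℤ) ^ 2 ∣ E * Z ^ 2 := by
      rw [← h.fh]
      exact dvd_sub h3 h6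
    apply hE2
    have h8 : IsCoprime ((p : ℤ) ^ 2) (Z ^ 2) :=
      IsCoprime.pow ((Prime.coprime_iff_not_dvd hp).2 hZ)
    exact h8.dvd_of_dvd_mul_right h7
  have h2 : ¬ (p : ℤ) ∣ u := fun h3 => hu (by
    rw [h.f]; exact (dvd_pow h3 two_ne_zero).mul_left _)
  have h3 : (p : ℤ) ∣ F - G := by rw [h.fg]; exact hD.mul_right _
  have h3' : (p : ℤ) ∣ F - H := by rw [h.fh]; exact hE.mul_right _
  have h4 : ¬ (p : ℤ) ∣ w := fun h5 => hu (by
    have h6 : (p : ℤ) ∣ G := by rw [h.g]; exact (dvd_pow h5 two_ne_zero).mul_left _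
    have := dvd_add h3 h6
    rwa [sub_add_cancel] at this)
  have h4' : ¬ (p : ℤ) ∣ v := fun h5 => hu (by
    have h6 : (p : ℤ) ∣ H := by rw [h.h]; exact (dvd_pow h5 two_ne_zero).mul_left _
    have := dvd_add h3' h6
    rwa [sub_add_cancel] at this)
  have h5 := leg_congr h3
  rw [h.f, h.g, leg_sq h2, leg_sq h4] at h5
  have h5' := leg_congr h3'
  rw [h.f, h.h, leg_sq h2, leg_sq h4'] at h5'
  rcases leg_ne hF with h6 | h6
  · exact ⟨h6, h5 ▸ h6, h5' ▸ h6⟩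
  · rw [← h5, ← h5', h6] at hprod
    norm_num at hprod

/-! ### The place 2 -/

theorem odd_sq {v : ℤ} (h : ¬ (2 : ℤ) ∣ v) : ∃ j : ℤ, v ^ 2 = 8 * j + 1 := by
  have h1 : v % 8 = 1 ∨ v % 8 = 3 ∨ v % 8 = 5 ∨ v % 8 = 7 := by omega
  obtain ⟨k, hk⟩ : ∃ k, v = 8 * k + v % 8 := ⟨v / 8, (Int.mul_ediv_add_emod v 8).symm⟩
  rcases h1 with h | h | h | h <;> rw [h] at hk <;> rw [hk]
  · exact ⟨8 * k ^ 2 + 2 * k, by ring⟩
  · exact ⟨8 * k ^ 2 + 6 * k + 1, by ring⟩
  · exact ⟨8 * k ^ 2 + 10 * k + 3, by ring⟩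
  · exact ⟨8 * k ^ 2 + 14 * k + 6, by ring⟩

theorem sqf_half {d d' : ℤ} (hd : Squarefree d) (h : d = 2 * d') : ¬ (2 : ℤ) ∣ d' := by
  rintro ⟨e, he⟩
  have h1 : (2 : ℤ) * 2 ∣ d := ⟨e, by rw [h, he]; ring⟩
  have := hd 2 h1
  rw [Int.isUnit_iff] at this
  omega

theorem even_of_sq {s : ℤ} (h : (2 : ℤ) ∣ s ^ 2) : (2 : ℤ) ∣ s := Int.prime_two.dvd_of_dvd_pow h

theorem sq_even {s N : ℤ} (h : 4 * N = s ^ 2) : ∃ s', N = s' ^ 2 := by
  obtain ⟨s', rfl⟩ := even_of_sq (s := s) (by rw [← h]; exact ⟨2 * N, by ring⟩)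
  exact ⟨s', by linarith⟩

theorem two_not {N d' s : ℤ} (hN : ¬ (2 : ℤ) ∣ N) (hd : ¬ (2 : ℤ) ∣ d')
    (h : N * (2 * d') = s ^ 2) : False := by
  obtain ⟨s', rfl⟩ := even_of_sq (s := s) (by rw [← h]; exact ⟨N * d', by ring⟩)
  have h1 : N * d' = 2 * s' ^ 2 := by linarith
  rcases Int.prime_two.dvd_or_dvd (⟨_, h1⟩ : (2 : ℤ) ∣ N * d') with h2 | h2
  · exact hN h2
  · exact hd h2

theorem one_mod {N d s n : ℤ} (hN : N = 8 * n + 1) (hd : Squarefree d) (h : N * d = s ^ 2) :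
    d % 8 = 1 := by
  have hNo : ¬ (2 : ℤ) ∣ N := by omega
  have h1 : ¬ (2 : ℤ) ∣ d := by
    rintro ⟨d', hd'⟩
    rw [hd'] at h
    exact two_not hNo (sqf_half hd hd') h
  have h2 : ¬ (2 : ℤ) ∣ s := by
    rintro ⟨s', rfl⟩
    have : (2 : ℤ) ∣ N * d := ⟨2 * s' ^ 2, by rw [h]; ring⟩
    rcases Int.prime_two.dvd_or_dvd this with h3 | h3
    · exact hNo h3
    · exact h1 h3
  obtain ⟨j, hj⟩ := odd_sq h2
  have h3 : d = 8 * (j - n * d) + 1 := by
    rw [hj, hN] at h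
    linarith
  omega

/-- the place `2` when the first difference is divisible by `16` and the second is `2 odd` -/
theorem two (h : Pt F G H D E Z dF dG dH u w v) {a b : ℤ} (hD : D = 16 * a) (hE : E = 2 * b)
    (hb : ¬ (2 : ℤ) ∣ b) : dH % 8 = 1 ∨ ∃ d', dH = 2 * d' ∧ (d' + b) % 8 = 0 := by
  obtain ⟨t, ht⟩ := h.t.sq
  have hs : F * G * dH = (t * u * w) ^ 2 := by
    rw [h.f, h.g]
    linear_combination (u * w) ^ 2 * ht
  have hG : G = F - 16 * a * Z ^ 2 := by rw [← hD]; linear_combination -h.fg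
  have hH : H = F - 2 * b * Z ^ 2 := by rw [← hE]; linear_combination -h.fh
  by_cases hF : (2 : ℤ) ∣ F
  · have hZ : ¬ (2 : ℤ) ∣ Z := notZ h Int.prime_two hF
    obtain ⟨z, hz⟩ := odd_sq hZ
    obtain ⟨F', rfl⟩ := hF
    by_cases hF' : (2 : ℤ) ∣ F'
    · right
      obtain ⟨F1, rfl⟩ := hF'
      have hv : ¬ (2 : ℤ) ∣ v := by
        rintro ⟨v', rfl⟩
        have h1 := h.h
        rw [hH, hz] at h1
        have h2 : 2 * (b - (2 * F1 - 8 * (b * z) - 2 * (dH * v' ^ 2))) = 0 := by linarith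
        apply hb
        exact ⟨F1 - 4 * (b * z) - dH * v' ^ 2, by linarith⟩
      obtain ⟨y, hy⟩ := odd_sq hv
      have h1 := h.h
      have hd : (2 : ℤ) ∣ dH := by
        have h2 : (2 : ℤ) ∣ dH * v ^ 2 := by
          rw [← h1, hH]
          exact ⟨2 * F1 - b * Z ^ 2, by ring⟩
        rcases Int.prime_two.dvd_or_dvd h2 with h3 | h3
        · exact h3
        · exact absurd (even_of_sq h3) hv
      obtain ⟨d', hd'⟩ := hd
      have hd'o := sqf_half h.t.s3 hd'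
      refine ⟨d', hd', ?_⟩
      rw [hG, hd'] at hs
      obtain ⟨s0, hs0⟩ := sq_even (N := 4 * (F1 * (F1 - 4 * a * Z ^ 2) * (2 * d')))
        (s := t * u * w) (by rw [← hs]; ring)
      obtain ⟨s1, hs1⟩ := sq_even hs0
      have h2F1 : (2 : ℤ) ∣ F1 := by
        by_contra h3
        refine two_not ?_ hd'o hs1
        intro h4
        rcases Int.prime_two.dvd_or_dvd h4 with h5 | h5
        · exact h3 h5
        · exact h3 (by
            have h6 : (2 : ℤ) ∣ 4 * a * Z ^ 2 := ⟨2 * a * Z ^ 2, by ring⟩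
            have := dvd_add h5 h6
            rwa [sub_add_cancel] at this)
      obtain ⟨F2, rfl⟩ := h2F1
      obtain ⟨s2, hs2⟩ := sq_even (N := F2 * (F2 - 2 * a * Z ^ 2) * (2 * d')) (s := s1)
        (by rw [← hs1]; ring)
      have h2F2 : (2 : ℤ) ∣ F2 := by
        by_contra h3
        refine two_not ?_ hd'o hs2
        intro h4
        rcases Int.prime_two.dvd_or_dvd h4 with h5 | h5
        · exact h3 h5
        · exact h3 (by
            have h6 : (2 : ℤ) ∣ 2 * a * Z ^ 2 := ⟨a * Z ^ 2, by ring⟩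
            have := dvd_add h5 h6
            rwa [sub_add_cancel] at this)
      obtain ⟨F3, rfl⟩ := h2F2
      rw [hH, hd', hz, hy] at h1
      have h3 : d' + b = 8 * (F3 - b * z - d' * y) := by linarith
      omega
    · left
      obtain ⟨s0, hs0⟩ := sq_even (N := (F' * (F' - 8 * a * Z ^ 2)) * dH)
        (s := t * u * w) (by rw [← hs, hG]; ring)
      obtain ⟨j, hj⟩ := odd_sq hF'
      exact one_mod (N := F' * (F' - 8 * a * Z ^ 2)) (n := j - a * F' * Z ^ 2)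
        (by linear_combination hj) h.t.s3 hs0
  · left
    obtain ⟨j, hj⟩ := odd_sq hF
    refine one_mod (N := F * G) (n := j - 2 * a * F * Z ^ 2) ?_ h.t.s3 hs
    rw [hG]
    linear_combination hj

end Pool.Agent.LEG
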