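import Pool.Agent.Helper21_LEG.Loc

/-!
The descent for `y^2 = x (x - 16 c p^2) (x - 2 p q)`, `q = 8 c p + r`.
-/

set_option autoImplicit false

namespace Pool.Agent.LEG

theorem leg_two {p : ℕ} [Fact p.Prime] (h : p % 8 = 3 ∨ p % 8 = 5) : legendreSym p 2 = -1 := by
  have hp : p ≠ 2 := by omega
  rw [legendreSym.at_two hp, ZMod.χ₈_nat_eq_if_mod_eight]
  rw [if_neg (by omega), if_neg (by omega)]

theorem leg_two' {p : ℕ} [Fact p.Prime] (h : p % 8 = 1 ∨ p % 8 = 7) : legendreSym p 2 = 1 := by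
  have hp : p ≠ 2 := by omega
  rw [legendreSym.at_two hp, ZMod.χ₈_nat_eq_if_mod_eight]
  rw [if_neg (by omega), if_pos (by omega)]

theorem leg_neg_one {p : ℕ} [Fact p.Prime] (h : p % 4 = 1) : legendreSym p (-1) = 1 := by
  have hp : p ≠ 2 := by omega
  rw [legendreSym.at_neg_one hp, ZMod.χ₄_nat_one_mod_four h]

theorem leg_neg_one' {p : ℕ} [Fact p.Prime] (h : p % 4 = 3) : legendreSym p (-1) = -1 := by
  have hp : p ≠ 2 := by omega
  rw [legendreSym.at_neg_one hp, ZMod.χ₄_nat_three_mod_four h]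

theorem nat3 {n a b c : ℕ} (hn : Squarefree n) (ha : a.Prime) (hb : b.Prime) (hc : c.Prime)
    (hab : a ≠ b) (hac : a ≠ c) (hbc : b ≠ c)
    (h : ∀ π : ℕ, π.Prime → π ∣ n → π = a ∨ π = b ∨ π = c) :
    n = (if a ∣ n then a else 1) * ((if b ∣ n then b else 1) * (if c ∣ n then c else 1)) := by
  have h1 : n.primeFactors = ({a, b, c} : Finset ℕ).filter (fun x => x ∣ n) := by
    ext x
    simp only [Nat.mem_primeFactors, Finset.mem_filter, Finset.mem_insert, Finset.mem_singleton]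
    constructor
    · rintro ⟨h1, h2, _⟩
      exact ⟨h x h1 h2, h2⟩
    · rintro ⟨h1 | h1 | h1, h2⟩
      · exact ⟨h1 ▸ ha, h2, hn.ne_zero⟩
      · exact ⟨h1 ▸ hb, h2, hn.ne_zero⟩
      · exact ⟨h1 ▸ hc, h2, hn.ne_zero⟩
  have h2 := Nat.prod_primeFactors_of_squarefree hn
  rw [h1, Finset.prod_filter, Finset.prod_insert (by simp [hab, hac]),
    Finset.prod_insert (by simp [hbc]), Finset.prod_singleton] at h2
  exact h2.symm

theorem int3 {n : ℤ} {a b c : ℕ} (hn : Squarefree n) (ha : a.Prime) (hb : b.Prime) (hc : c.Prime)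
    (hab : a ≠ b) (hac : a ≠ c) (hbc : b ≠ c)
    (h : ∀ π : ℕ, π.Prime → (π : ℤ) ∣ n → π = a ∨ π = b ∨ π = c) :
    ∃ s x y z : ℤ, n = s * x * y * z ∧ (s = 1 ∨ s = -1) ∧
      (x = a ∧ (a : ℤ) ∣ n ∨ x = 1 ∧ ¬ (a : ℤ) ∣ n) ∧
      (y = b ∧ (b : ℤ) ∣ n ∨ y = 1 ∧ ¬ (b : ℤ) ∣ n) ∧
      (z = c ∧ (c : ℤ) ∣ n ∨ z = 1 ∧ ¬ (c : ℤ) ∣ n) := by
  have h1 := nat3 (n := n.natAbs) (Int.squarefree_natAbs.2 hn) ha hb hc hab hac hbc
    (fun π hπ hd => h π hπ (Int.natCast_dvd.2 hd))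
  have e : n = n.sign * n.natAbs := (Int.sign_mul_natAbs n).symm
  refine ⟨n.sign, ((if a ∣ n.natAbs then a else 1 : ℕ) : ℤ),
    ((if b ∣ n.natAbs then b else 1 : ℕ) : ℤ), ((if c ∣ n.natAbs then c else 1 : ℕ) : ℤ),
    ?_, ?_, ?_, ?_, ?_⟩
  · have h2 : (n.natAbs : ℤ) = ((if a ∣ n.natAbs then a else 1 : ℕ) : ℤ) *
        (((if b ∣ n.natAbs then b else 1 : ℕ) : ℤ) * ((if c ∣ n.natAbs then c else 1 : ℕ) : ℤ)) := by
      exact_mod_cast h1
    calc n = n.sign * n.natAbs := e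
      _ = _ := by rw [h2]; ring
  · rcases lt_trichotomy n 0 with h0 | h0 | h0
    · right; exact Int.sign_eq_neg_one_of_neg h0
    · exact absurd h0 hn.ne_zero
    · left; exact Int.sign_eq_one_of_pos h0
  · by_cases h2 : a ∣ n.natAbs
    · left; rw [if_pos h2]; exact ⟨rfl, Int.natCast_dvd.2 h2⟩
    · right; rw [if_neg h2]; exact ⟨rfl, fun h3 => h2 (Int.natCast_dvd.1 h3)⟩
  · by_cases h2 : b ∣ n.natAbs
    · left; rw [if_pos h2]; exact ⟨rfl, Int.natCast_dvd.2 h2⟩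
    · right; rw [if_neg h2]; exact ⟨rfl, fun h3 => h2 (Int.natCast_dvd.1 h3)⟩
  · by_cases h2 : c ∣ n.natAbs
    · left; rw [if_pos h2]; exact ⟨rfl, Int.natCast_dvd.2 h2⟩
    · right; rw [if_neg h2]; exact ⟨rfl, fun h3 => h2 (Int.natCast_dvd.1 h3)⟩

theorem prime_dvd_nat {a π : ℕ} (hπ : π.Prime) (ha : a.Prime) (h : (π : ℤ) ∣ (a : ℤ)) : π = a :=
  (Nat.prime_dvd_prime_iff_eq hπ ha).1 (Int.natCast_dvd_natCast.1 h)

theorem enum3 {P Q R d3 s x2 xq xr : ℤ}
    (md : (P % 8 = 5 ∧ Q % 8 = 5) ∨ (P % 8 = 3 ∧ Q % 8 = 5) ∨ (P % 8 = 5 ∧ Q % 8 = 3))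
    (hR : R % 8 = Q % 8) (hd3 : d3 = s * x2 * xq * xr) (hs : s = 1 ∨ s = -1)
    (hx2 : x2 = 2 ∧ 2 ∣ d3 ∨ x2 = 1 ∧ ¬ 2 ∣ d3) (hxq : xq = Q ∨ xq = 1) (hxr : xr = R ∨ xr = 1)
    (h2 : d3 % 8 = 1 ∨ ∃ d', d3 = 2 * d' ∧ (d' + P * Q) % 8 = 0) :
    d3 = 1 ∨ d3 = Q * R ∨ d3 = 2 ∨ d3 = 2 * (Q * R) ∨ (P % 8 = 5 ∧ d3 = (-1) * 2) ∨
      (P % 8 = 5 ∧ d3 = (-1) * (2 * (Q * R))) := by
  have hQR : (Q * R) % 8 = 1 := by
    have h3 : Q % 8 = 3 ∨ Q % 8 = 5 := by
      clear * - md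
      omega
    rcases h3 with h3 | h3 <;> rw [Int.mul_emod, hR, h3] <;> norm_num
  have hPQ : (P * Q) % 8 = (P % 8 * (Q % 8)) % 8 := Int.mul_emod _ _ _
  rcases hx2 with ⟨e2, -⟩ | ⟨e2, n2⟩
  · rcases h2 with h2 | ⟨d', h2, h3⟩
    · exfalso
      have : d3 = 2 * (s * xq * xr) := by rw [hd3, e2]; ring
      omega
    · have hd' : d' = s * xq * xr := by
        have h4 : (2 : ℤ) * d' = 2 * (s * xq * xr) := by
          rw [← h2, hd3, e2]; ring
        exact mul_left_cancel₀ two_ne_zero h4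
      rcases hxq with rfl | rfl <;> rcases hxr with rfl | rfl <;> rcases hs with rfl | rfl
      · right; right; right; left
        rw [h2, hd']; ring
      · right; right; right; right; right
        have h6 : d' = -(xq * xr) := by rw [hd']; ring
        refine ⟨?_, by rw [h2, h6]; ring⟩
        rcases md with ⟨m1, m2⟩ | ⟨m1, m2⟩ | ⟨m1, m2⟩
        · exact m1
        · rw [m1, m2] at hPQ; omega
        · rw [m1, m2] at hPQ; omega
      · exfalso
        rcases md with ⟨m1, m2⟩ | ⟨m1, m2⟩ | ⟨m1, m2⟩ <;> rw [m1, m2] at hPQ <;> omega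
      · exfalso
        rcases md with ⟨m1, m2⟩ | ⟨m1, m2⟩ | ⟨m1, m2⟩ <;> rw [m1, m2] at hPQ <;> omega
      · exfalso
        rcases md with ⟨m1, m2⟩ | ⟨m1, m2⟩ | ⟨m1, m2⟩ <;> rw [m1, m2] at hPQ <;> omega
      · exfalso
        rcases md with ⟨m1, m2⟩ | ⟨m1, m2⟩ | ⟨m1, m2⟩ <;> rw [m1, m2] at hPQ <;> omega
      · right; right; left
        rw [h2, hd']; ring
      · right; right; right; right; left
        have h6 : d' = -1 := by rw [hd']; ring
        refine ⟨?_, by rw [h2, h6]; ring⟩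
        rcases md with ⟨m1, m2⟩ | ⟨m1, m2⟩ | ⟨m1, m2⟩
        · exact m1
        · rw [m1, m2] at hPQ; omega
        · rw [m1, m2] at hPQ; omega
  · have h3 : d3 % 8 = 1 := by
      rcases h2 with h2 | ⟨d', h2, -⟩
      · exact h2
      · exact absurd ⟨d', h2⟩ n2
    rcases hxq with rfl | rfl <;> rcases hxr with rfl | rfl <;> rcases hs with rfl | rfl <;>
      rw [e2] at hd3
    · right; left; rw [hd3]; ring
    · exfalso
      have h5 : d3 = -(xq * xr) := by rw [hd3]; ring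
      omega
    · exfalso; omega
    · exfalso; omega
    · exfalso; omega
    · exfalso; omega
    · left; rw [hd3]; ring
    · exfalso; omega

/-- The data of type I. -/
structure DataI (c p q r : ℕ) : Prop where
  hp : p.Prime
  hq : q.Prime
  hr : r.Prime
  e : q = 8 * c * p + r
  c0 : 0 < c
  sc : Squarefree (c : ℤ)
  md : (p % 8 = 5 ∧ q % 8 = 5) ∨ (p % 8 = 3 ∧ q % 8 = 5) ∨ (p % 8 = 5 ∧ q % 8 = 3)
  pc : ¬ p ∣ c
  qc : ¬ q ∣ c
  rc : ¬ r ∣ c
  pr : p ≠ r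
  nl : ∀ (l : ℕ) [Fact l.Prime], l ≠ 2 → l ∣ c → legendreSym l (-(2 * p * q)) = -1

theorem coreI {c p q r : ℕ} (hd : DataI c p q r) {X G H Z d1 d2 d3 u w v : ℤ}
    (h : Pt X G H (16 * c * p ^ 2) (2 * p * q) Z d1 d2 d3 u w v) (h0 : 0 < d1)
    (hp1 : ¬ (p : ℤ) ∣ d1) (hp2 : ¬ (p : ℤ) ∣ d2) (hp3 : ¬ (p : ℤ) ∣ d3) :
    d1 = 1 ∧ d2 = 1 ∧ d3 = 1 := by
  obtain ⟨hp, hq, hr, e, c0, sc, md, pc, qc, rc, pr, nl⟩ := hd
  have fp : Fact p.Prime := ⟨hp⟩
  have fq : Fact q.Prime := ⟨hq⟩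
  have fr : Fact r.Prime := ⟨hr⟩
  have e' : (q : ℤ) = 8 * c * p + r := by exact_mod_cast e
  have hpq : p ≠ q := by
    rintro rfl
    have h1 : (1 : ℕ) ≤ c := c0
    have h2 := hr.pos
    nlinarith [hp.pos]
  have hqr : q ≠ r := by
    intro h1
    have h2 : 0 < 8 * c * p := Nat.mul_pos (by omega) hp.pos
    omega
  have hr8 : r % 8 = q % 8 := by
    rw [e, show 8 * c * p + r = r + 8 * (c * p) by ring, Nat.add_mul_mod_self_left]
  have hrm : (r : ℤ) % 8 = (q : ℤ) % 8 := by exact_mod_cast hr8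
  have mdz : ((p : ℤ) % 8 = 5 ∧ (q : ℤ) % 8 = 5) ∨ ((p : ℤ) % 8 = 3 ∧ (q : ℤ) % 8 = 5) ∨
      ((p : ℤ) % 8 = 5 ∧ (q : ℤ) % 8 = 3) := by
    rcases md with ⟨m1, m2⟩ | ⟨m1, m2⟩ | ⟨m1, m2⟩
    · left; constructor <;> omega
    · right; left; constructor <;> omega
    · right; right; constructor <;> omega
  have l2p : legendreSym p 2 = -1 := leg_two (by
    clear * - md
    omega)
  have l2q : legendreSym q 2 = -1 := leg_two (by
    clear * - md
    omega)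
  have hrec : p ≠ 2 → q ≠ 2 → legendreSym q p = legendreSym p q := fun h1 h2 => by
    have h3 : p % 4 = 1 ∨ q % 4 = 1 := by
      clear * - md
      omega
    rcases h3 with h3 | h3
    · exact legendreSym.quadratic_reciprocity_one_mod_four h3 h2
    · exact (legendreSym.quadratic_reciprocity_one_mod_four h3 h1).symm
  have lm1 : (p : ℤ) % 8 = 5 → legendreSym p (-1) = 1 := fun h => leg_neg_one (by
    clear * - h
    omega)
  have q2 : ¬ (2 : ℤ) ∣ (q : ℤ) * r := by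
    intro h1
    clear * - h1 md hr8
    rcases Int.prime_two.dvd_or_dvd h1 with h2 | h2 <;> omega
  have hp2' : p ≠ 2 := by omega
  have hq2 : q ≠ 2 := by omega
  have hr2 : r ≠ 2 := by omega
  have ip : Prime (p : ℤ) := Nat.prime_iff_prime_int.1 hp
  have iq : Prime (q : ℤ) := Nat.prime_iff_prime_int.1 hq
  have ir : Prime (r : ℤ) := Nat.prime_iff_prime_int.1 hr
  -- divisibility helpers
  have dv2 : ∀ {π : ℕ}, π.Prime → (π : ℤ) ∣ 2 → π = 2 := fun hπ h1 =>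
    prime_dvd_nat hπ Nat.prime_two (by exact_mod_cast h1)
  have dvB : ∀ {π : ℕ}, π.Prime → (π : ℤ) ∣ 2 * p * q → π = 2 ∨ π = p ∨ π = q := by
    intro π hπ h1
    have iπ : Prime (π : ℤ) := Nat.prime_iff_prime_int.1 hπ
    rcases iπ.dvd_or_dvd h1 with h2 | h2
    · rcases iπ.dvd_or_dvd h2 with h3 | h3
      · exact Or.inl (dv2 hπ h3)
      · exact Or.inr (Or.inl (prime_dvd_nat hπ hp h3))
    · exact Or.inr (Or.inr (prime_dvd_nat hπ hq h2))
  have dvBA : ∀ {π : ℕ}, π.Prime → (π : ℤ) ∣ 2 * p * q - 16 * c * p ^ 2 →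
      π = 2 ∨ π = p ∨ π = r := by
    intro π hπ h1
    have iπ : Prime (π : ℤ) := Nat.prime_iff_prime_int.1 hπ
    have e1 : (2 * p * q - 16 * c * p ^ 2 : ℤ) = 2 * p * r := by rw [e']; ring
    rw [e1] at h1
    rcases iπ.dvd_or_dvd h1 with h2 | h2
    · rcases iπ.dvd_or_dvd h2 with h3 | h3
      · exact Or.inl (dv2 hπ h3)
      · exact Or.inr (Or.inl (prime_dvd_nat hπ hp h3))
    · exact Or.inr (Or.inr (prime_dvd_nat hπ hr h2))
  have dvA : ∀ {π : ℕ}, π.Prime → (π : ℤ) ∣ 16 * c * p ^ 2 → π = 2 ∨ π ∣ c ∨ π = p := by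
    intro π hπ h1
    have iπ : Prime (π : ℤ) := Nat.prime_iff_prime_int.1 hπ
    rcases iπ.dvd_or_dvd h1 with h2 | h2
    · rcases iπ.dvd_or_dvd h2 with h3 | h3
      · have h4 : (π : ℤ) ∣ 2 ^ 4 := by norm_num; exact h3
        exact Or.inl (dv2 hπ (iπ.dvd_of_dvd_pow h4))
      · exact Or.inr (Or.inl (Int.natCast_dvd_natCast.1 h3))
    · exact Or.inr (Or.inr (prime_dvd_nat hπ hp (iπ.dvd_of_dvd_pow h2)))
  -- common divisors
  have c12 : ∀ {π : ℕ}, π.Prime → (π : ℤ) ∣ d1 → (π : ℤ) ∣ d2 → (π : ℤ) ∣ 16 * c * p ^ 2 :=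
    fun hπ h1 h2 => h.cdvd (Nat.prime_iff_prime_int.1 hπ) h1 h2
  have c13 : ∀ {π : ℕ}, π.Prime → (π : ℤ) ∣ d1 → (π : ℤ) ∣ d3 → (π : ℤ) ∣ 2 * p * q :=
    fun hπ h1 h2 => h.swap.cdvd (Nat.prime_iff_prime_int.1 hπ) h1 h2
  have c23 : ∀ {π : ℕ}, π.Prime → (π : ℤ) ∣ d2 → (π : ℤ) ∣ d3 →
      (π : ℤ) ∣ 2 * p * q - 16 * c * p ^ 2 :=
    fun hπ h1 h2 => h.rot.swap.cdvd (Nat.prime_iff_prime_int.1 hπ) h1 h2
  -- the third number
  have P3 : ∀ π : ℕ, π.Prime → (π : ℤ) ∣ d3 → π = 2 ∨ π = q ∨ π = r := by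
    intro π hπ h3
    have hπp : π ≠ p := fun h4 => hp3 (h4 ▸ h3)
    rcases h.t.rot.rot.dvd (Nat.prime_iff_prime_int.1 hπ) h3 with ⟨h4, _⟩ | ⟨_, h4⟩
    · rcases dvB hπ (c13 hπ h4 h3) with h5 | h5 | h5
      · exact Or.inl h5
      · exact absurd h5 hπp
      · exact Or.inr (Or.inl h5)
    · rcases dvBA hπ (c23 hπ h4 h3) with h5 | h5 | h5
      · exact Or.inl h5
      · exact absurd h5 hπp
      · exact Or.inr (Or.inr h5)
  obtain ⟨s, x2, xq, xr, hd3, hs, hx2, hxq, hxr⟩ := int3 h.t.s3 Nat.prime_two hq hr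
    (Ne.symm hq2) (Ne.symm hr2) hqr P3
  -- the place p
  have hTW : legendreSym p d1 = 1 ∧ legendreSym p d2 = 1 ∧ legendreSym p d3 = 1 := by
    refine tw0 h ⟨16 * c * p, by ring⟩ ⟨2 * q, by ring⟩ ?_ hp1 hp2 hp3
    rintro ⟨k, hk⟩
    have h1 : (p : ℤ) ∣ 2 * q := by
      have h2 : (p : ℤ) * (2 * q) = p * (p * k) := by linear_combination hk
      exact ⟨k, mul_left_cancel₀ ip.ne_zero h2⟩
    rcases ip.dvd_or_dvd h1 with h2 | h2
    · exact hp2' (dv2 hp h2)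
    · exact hpq (prime_dvd_nat hp hq h2)
  obtain ⟨L1, L2, L3⟩ := hTW
  -- the place 2
  have hbo : ¬ (2 : ℤ) ∣ (p : ℤ) * q := by
    intro h1
    clear * - h1 md
    rcases Int.prime_two.dvd_or_dvd h1 with h2 | h2 <;> omega
  have h2 := two h (a := c * p ^ 2) (b := p * q) (by ring) (by ring) hbo
  -- q r is a square mod p
  have hqrp : legendreSym p ((q : ℤ) * r) = 1 := by
    have h3 : legendreSym p ((q : ℤ) * r) = legendreSym p (1 * (q : ℤ) ^ 2) := by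
      apply leg_congr
      exact ⟨-(8 * c * q), by rw [show (r : ℤ) = q - 8 * c * p by linarith]; ring⟩
    rw [h3, leg_sq, legendreSym.at_one]
    intro h4
    exact hpq (prime_dvd_nat hp hq h4)
  have key3 : d3 = 1 ∨ d3 = q * r := by
    rcases enum3 mdz hrm hd3 hs (hx2.imp (fun h => ⟨by exact_mod_cast h.1, by exact_mod_cast h.2⟩)
      (fun h => ⟨h.1, by exact_mod_cast h.2⟩)) (hxq.imp And.left And.left)
      (hxr.imp And.left And.left) h2 with h3 | h3 | h3 | h3 | ⟨h3, h4⟩ | ⟨h3, h4⟩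
    · exact Or.inl h3
    · exact Or.inr h3
    · exfalso
      rw [h3, l2p] at L3
      norm_num at L3
    · exfalso
      rw [h3, legendreSym.mul, hqrp, l2p] at L3
      norm_num at L3
    · exfalso
      rw [h4, legendreSym.mul, l2p, lm1 h3] at L3
      norm_num at L3
    · exfalso
      rw [h4, legendreSym.mul, legendreSym.mul, hqrp, l2p, lm1 h3] at L3
      norm_num at L3
  -- the odd primes dividing c
  have hcl : ∀ l : ℕ, l.Prime → l ≠ 2 → l ∣ c → ¬ (l : ℤ) ∣ d1 ∧ ¬ (l : ℤ) ∣ d2 := by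
    intro l hl l2 lc
    have fl : Fact l.Prime := ⟨hl⟩
    have il : Prime (l : ℤ) := Nat.prime_iff_prime_int.1 hl
    have lp : l ≠ p := fun h' => pc (h' ▸ lc)
    have lq : l ≠ q := fun h' => qc (h' ▸ lc)
    have lc' : (l : ℤ) ∣ c := Int.natCast_dvd_natCast.2 lc
    have hE : ¬ (l : ℤ) ∣ 2 * p * q := by
      intro h1
      rcases dvB hl h1 with h2 | h2 | h2
      · exact l2 h2
      · exact lp h2
      · exact lq h2
    have hD2 : ¬ (l : ℤ) ^ 2 ∣ 16 * c * p ^ 2 := by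
      obtain ⟨k, hk⟩ := lc'
      have hk' : ¬ (l : ℤ) ∣ k := fun h' => sq_not_dvd sc il (by
        rw [hk, pow_two]; exact mul_dvd_mul_left _ h')
      rintro ⟨m, hm⟩
      have h1 : (l : ℤ) ∣ 2 ^ 4 * k * p ^ 2 := by
        refine ⟨m, ?_⟩
        have h2 : (l : ℤ) * (2 ^ 4 * k * p ^ 2) = l * (l * m) := by
          rw [hk] at hm
          linear_combination hm
        exact mul_left_cancel₀ il.ne_zero h2
      rcases il.dvd_or_dvd h1 with h2 | h2
      · rcases il.dvd_or_dvd h2 with h3 | h3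
        · exact l2 (dv2 hl (il.dvd_of_dvd_pow h3))
        · exact hk' h3
      · exact lp (prime_dvd_nat hl hp (il.dvd_of_dvd_pow h2))
    obtain ⟨-, hm⟩ := mult h (lc'.mul_left 16 |>.mul_right _) hD2 hE
    rcases hm with ⟨h1, h2, -⟩ | ⟨-, -, h3⟩
    · exact ⟨h1, h2⟩
    · exfalso
      rw [nl l l2 lc] at h3
      rcases key3 with h4 | h4
      · rw [h4, legendreSym.at_one] at h3
        norm_num at h3
      · have h5 : legendreSym l d3 = legendreSym l (1 * (q : ℤ) ^ 2) := by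
          rw [h4]
          apply leg_congr
          obtain ⟨k, hk⟩ := lc'
          refine ⟨-(8 * k * p * q), ?_⟩
          rw [show (r : ℤ) = q - 8 * c * p by linarith, hk]
          ring
        rw [h5, leg_sq (fun h6 => lq (prime_dvd_nat hl hq h6)), legendreSym.at_one] at h3
        norm_num at h3
  have hd3' : ∀ {π : ℕ}, π.Prime → (π : ℤ) ∣ d3 → π = q ∨ π = r := by
    intro π hπ h1
    rcases P3 π hπ h1 with h3 | h3
    · exfalso
      subst h3
      have h1' : (2 : ℤ) ∣ d3 := by exact_mod_cast h1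
      rcases key3 with h4 | h4 <;> rw [h4] at h1'
      · norm_num at h1'
      · exact q2 h1'
    · exact h3
  have nqA : ¬ (q : ℤ) ∣ 16 * c * p ^ 2 := fun h1 => by
    rcases dvA hq h1 with h3 | h3 | h3
    · exact hq2 h3
    · exact qc h3
    · exact hpq h3.symm
  have nrB : ¬ (r : ℤ) ∣ 2 * p * q := fun h1 => by
    rcases dvB hr h1 with h3 | h3 | h3
    · exact hr2 h3
    · exact pr h3.symm
    · exact hqr h3.symm
  have nqBA : ¬ (q : ℤ) ∣ 2 * p * q - 16 * c * p ^ 2 := fun h1 => by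
    rcases dvBA hq h1 with h3 | h3 | h3
    · exact hq2 h3
    · exact hpq h3.symm
    · exact hqr h3
  have P1 : ∀ π : ℕ, π.Prime → (π : ℤ) ∣ d1 → π = 2 ∨ π = q ∨ π = r := by
    intro π hπ h1
    rcases h.t.dvd (Nat.prime_iff_prime_int.1 hπ) h1 with ⟨h4, _⟩ | ⟨_, h4⟩
    · rcases dvA hπ (c12 hπ h1 h4) with h5 | h5 | h5
      · exact Or.inl h5
      · by_contra h6
        push Not at h6
        exact (hcl π hπ h6.1 h5).1 h1
      · exact absurd h1 (h5 ▸ hp1)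
    · exact Or.inr (hd3' hπ h4)
  have P2 : ∀ π : ℕ, π.Prime → (π : ℤ) ∣ d2 → π = 2 ∨ π = q ∨ π = r := by
    intro π hπ h1
    rcases h.t.rot.dvd (Nat.prime_iff_prime_int.1 hπ) h1 with ⟨h4, _⟩ | ⟨_, h4⟩
    · exact Or.inr (hd3' hπ h4)
    · rcases dvA hπ (c12 hπ h4 h1) with h5 | h5 | h5
      · exact Or.inl h5
      · by_contra h6
        push Not at h6
        exact (hcl π hπ h6.1 h5).2 h1
      · exact absurd h1 (h5 ▸ hp2)
  have nr1 : ¬ (r : ℤ) ∣ d1 := by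
    intro h1
    rcases h.t.dvd ir h1 with ⟨h4, _⟩ | ⟨_, h4⟩
    · rcases dvA hr (c12 hr h1 h4) with h5 | h5 | h5
      · exact hr2 h5
      · exact rc h5
      · exact pr h5.symm
    · exact nrB (c13 hr h1 h4)
  obtain ⟨s1, y2, yq, yr, hd1, hs1, hy2, hyq, hyr⟩ := int3 h.t.s1 Nat.prime_two hq hr
    (Ne.symm hq2) (Ne.symm hr2) hqr P1
  obtain ⟨t, ht⟩ := h.t.sq
  have ht0 : 0 < d1 * d2 * d3 := by
    rw [ht]
    apply lt_of_le_of_ne (sq_nonneg t)
    rw [← ht]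
    exact (mul_ne_zero (mul_ne_zero h.t.s1.ne_zero h.t.s2.ne_zero) h.t.s3.ne_zero).symm
  have qpos : (0 : ℤ) < q := by exact_mod_cast hq.pos
  have rpos : (0 : ℤ) < r := by exact_mod_cast hr.pos
  have hyr' : yr = 1 := by
    rcases hyr with ⟨-, h1⟩ | ⟨h1, -⟩
    · exact absurd h1 nr1
    · exact h1
  have hs1' : s1 = 1 := by
    rcases hs1 with h1 | h1
    · exact h1
    · exfalso
      rw [hd1, h1, hyr'] at h0
      rcases hy2 with ⟨h3, -⟩ | ⟨h3, -⟩ <;> rcases hyq with ⟨h4, -⟩ | ⟨h4, -⟩ <;>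
        rw [h3, h4] at h0 <;> push_cast at h0 <;> nlinarith
  rw [hs1', hyr', one_mul, mul_one] at hd1
  rcases key3 with k3 | k3
  · -- d3 = 1
    have nq1 : ¬ (q : ℤ) ∣ d1 := by
      intro h1
      rcases h.t.dvd iq h1 with ⟨h4, _⟩ | ⟨_, h4⟩
      · exact nqA (c12 hq h1 h4)
      · rw [k3] at h4
        exact iq.not_isUnit (isUnit_of_dvd_one h4)
    have hyq' : yq = 1 := by
      rcases hyq with ⟨-, h1⟩ | ⟨h1, -⟩
      · exact absurd h1 nq1
      · exact h1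
    have k1 : d1 = 1 := by
      rcases hy2 with ⟨h3, -⟩ | ⟨h3, -⟩
      · exfalso
        rw [hd1, h3, hyq', mul_one] at L1
        have : legendreSym p ((2 : ℕ) : ℤ) = -1 := by exact_mod_cast l2p
        rw [this] at L1
        norm_num at L1
      · rw [hd1, h3, hyq', mul_one]
    refine ⟨k1, ?_, k3⟩
    rw [k1, k3, one_mul, mul_one] at ht
    have h5 : IsUnit t := h.t.s2 t ⟨1, by rw [ht]; ring⟩
    rcases Int.isUnit_iff.1 h5 with h6 | h6 <;> rw [ht, h6] <;> norm_num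
  · -- d3 = q r
    exfalso
    have q3 : (q : ℤ) ∣ d3 := ⟨r, by rw [k3]⟩
    have r3 : (r : ℤ) ∣ d3 := ⟨q, by rw [k3]; ring⟩
    have nq2 : ¬ (q : ℤ) ∣ d2 := fun h1 => nqBA (c23 hq h1 q3)
    have q1 : (q : ℤ) ∣ d1 := by
      rcases h.t.rot.rot.dvd iq q3 with ⟨h4, _⟩ | ⟨_, h4⟩
      · exact h4
      · exact absurd h4 nq2
    have r2 : (r : ℤ) ∣ d2 := by
      rcases h.t.rot.rot.dvd ir r3 with ⟨h4, _⟩ | ⟨_, h4⟩
      · exact absurd h4 nr1
      · exact h4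
    have hyq' : yq = q := by
      rcases hyq with ⟨h1, -⟩ | ⟨-, h1⟩
      · exact h1
      · exact absurd q1 h1
    obtain ⟨s2, z2, zq, zr, hd2, hs2, hz2, hzq, hzr⟩ := int3 h.t.s2 Nat.prime_two hq hr
      (Ne.symm hq2) (Ne.symm hr2) hqr P2
    have hzq' : zq = 1 := by
      rcases hzq with ⟨-, h1⟩ | ⟨h1, -⟩
      · exact absurd h1 nq2
      · exact h1
    have hzr' : zr = r := by
      rcases hzr with ⟨h1, -⟩ | ⟨-, h1⟩
      · exact h1
      · exact absurd r2 h1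
    have d2pos : 0 < d2 := by
      have h5 : 0 < d1 * d3 := by
        rw [k3]; positivity
      by_contra h6
      push Not at h6
      have h7 : d1 * d2 * d3 ≤ 0 := by
        have h8 : d1 * d2 * d3 = (d1 * d3) * d2 := by ring
        rw [h8]
        exact mul_nonpos_of_nonneg_of_nonpos h5.le h6
      linarith
    have hs2' : s2 = 1 := by
      rcases hs2 with h1 | h1
      · exact h1
      · exfalso
        rw [hd2, h1, hzq', hzr'] at d2pos
        rcases hz2 with ⟨h3, -⟩ | ⟨h3, -⟩ <;> rw [h3] at d2pos <;> push_cast at d2pos <;> nlinarith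
    rw [hs2', hzq', hzr', one_mul, mul_one] at hd2
    rw [hyq'] at hd1
    -- the place q
    have hE2 : ¬ (q : ℤ) ^ 2 ∣ 2 * p * q := by
      rintro ⟨k, hk⟩
      have h1 : (q : ℤ) ∣ 2 * p := by
        refine ⟨k, ?_⟩
        have h2 : (q : ℤ) * (2 * p) = q * (q * k) := by linear_combination hk
        exact mul_left_cancel₀ iq.ne_zero h2
      rcases iq.dvd_or_dvd h1 with h2 | h2
      · exact hq2 (dv2 hq h2)
      · exact hpq (prime_dvd_nat hq hp h2).symm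
    obtain ⟨-, hm⟩ := mult h.swap (p := q) ⟨2 * p, by ring⟩ hE2 nqA
    have lq2 : legendreSym q d2 = legendreSym q (-(16 * c * p ^ 2)) := by
      rcases hm with ⟨h1, -, -⟩ | ⟨-, -, h3⟩
      · exact absurd q1 h1
      · exact h3
    have lqr : legendreSym q (r : ℤ) = legendreSym q (-(8 * c * p)) := by
      apply leg_congr
      exact ⟨1, by linarith⟩
    have nqp : ¬ (q : ℤ) ∣ 8 * c * p := by
      intro h1
      apply nqA
      have := (h1.mul_left 2).mul_right (p : ℤ)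
      have e3 : (2 * (8 * c * p) * p : ℤ) = 16 * c * p ^ 2 := by ring
      rwa [e3] at this
    -- leg q (2p) = 1 relation
    have l1 : legendreSym q (-(8 * c * p)) * legendreSym q (-(16 * c * p ^ 2)) =
        legendreSym q 2 * legendreSym q p := by
      rw [← legendreSym.mul, ← legendreSym.mul]
      have e3 : (-(8 * c * p) * -(16 * c * p ^ 2) : ℤ) = (2 * p) * (8 * c * p) ^ 2 := by ring
      rw [e3, leg_sq nqp]
    have sA : legendreSym q (-(16 * c * p ^ 2)) = 1 ∨ legendreSym q (-(16 * c * p ^ 2)) = -1 :=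
      leg_ne (by rwa [dvd_neg])
    -- 2 divides d1 iff it divides d2
    have n23 : ¬ (2 : ℤ) ∣ d3 := by rw [k3]; exact q2
    have c2 : (2 : ℤ) ∣ d1 ↔ (2 : ℤ) ∣ d2 := by
      constructor
      · intro h1
        rcases h.t.dvd Int.prime_two h1 with ⟨h4, _⟩ | ⟨_, h4⟩
        · exact h4
        · exact absurd h4 n23
      · intro h1
        rcases h.t.rot.dvd Int.prime_two h1 with ⟨h4, _⟩ | ⟨_, h4⟩
        · exact absurd h4 n23
        · exact h4
    rcases hy2 with ⟨h3, h4⟩ | ⟨h3, h4⟩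
    · -- 2 q, 2 r
      have h5 : z2 = 2 := by
        rcases hz2 with ⟨h6, -⟩ | ⟨-, h6⟩
        · exact h6
        · exact absurd (c2.1 (by exact_mod_cast h4)) (by exact_mod_cast h6)
      rw [h3] at hd1
      push_cast at hd1
      rw [h5] at hd2
      rw [hd1, legendreSym.mul, l2p] at L1
      rw [hd2, legendreSym.mul, l2q, lqr] at lq2
      rw [l2q, hrec hp2' hq2] at l1
      rcases sA with h6 | h6 <;> rw [h6] at lq2 l1 <;> nlinarith
    · have h5 : z2 = 1 := by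
        rcases hz2 with ⟨-, h6⟩ | ⟨h6, -⟩
        · exact absurd (c2.2 (by exact_mod_cast h6)) (by exact_mod_cast h4)
        · exact h6
      rw [h3, one_mul] at hd1
      rw [h5, one_mul] at hd2
      rw [hd1] at L1
      rw [hd2, lqr] at lq2
      rw [l2q, hrec hp2' hq2, L1] at l1
      rcases sA with h6 | h6 <;> rw [h6] at lq2 l1 <;> nlinarith

end Pool.Agent.LEG
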