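import Pool.Agent.Helper21_LEG.Loc

/-!
From the classes of points to the absence of points: halving, translation and an infinite ascent
of the 2-adic valuation.
-/

set_option autoImplicit false

namespace Pool.Agent.LEG

/-! ### Halving and translation -/

/-- `x`, `x - A`, `x - B` are squares -/
def Good (A B x : ℚ) : Prop := ∃ u1 u2 u3 : ℚ, x = u1 ^ 2 ∧ x - A = u2 ^ 2 ∧ x - B = u3 ^ 2

theorem halve {A B x : ℚ} (h : Good A B x) : ∃ x0 y0 : ℚ, y0 ^ 2 = x0 * (x0 - A) * (x0 - B) ∧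
    x * (4 * y0 ^ 2) = (x0 ^ 2 - A * B) ^ 2 ∧ (A ≠ 0 → B ≠ 0 → A ≠ B → y0 ≠ 0) := by
  obtain ⟨u1, u2, u3, h1, h2, h3⟩ := h
  have hA : A = u1 ^ 2 - u2 ^ 2 := by linear_combination h1 - h2
  have hB : B = u1 ^ 2 - u3 ^ 2 := by linear_combination h1 - h3
  refine ⟨x + u1 * u2 + u2 * u3 + u3 * u1, (u1 + u2) * (u2 + u3) * (u3 + u1), ?_, ?_, ?_⟩
  · rw [hA, hB, h1]; ring
  · rw [hA, hB, h1]; ring
  · intro a0 b0 ab
    refine mul_ne_zero (mul_ne_zero ?_ ?_) ?_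
    · intro h; apply a0; rw [hA]; linear_combination (u1 - u2) * h
    · intro h; apply ab; rw [hA, hB]; linear_combination (u3 - u2) * h
    · intro h; apply b0; rw [hB]; linear_combination (u1 - u3) * h

/-- equivalence of points which differ by a point of order two -/
def Rel (A B x y x' y' : ℚ) : Prop := y' ≠ 0 ∧ y' ^ 2 = x' * (x' - A) * (x' - B) ∧
  (x' ^ 2 - A * B) ^ 2 * y ^ 2 = (x ^ 2 - A * B) ^ 2 * y' ^ 2

theorem ne_of {A B x y : ℚ} (hy : y ≠ 0) (h : y ^ 2 = x * (x - A) * (x - B)) :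
    x ≠ 0 ∧ x - A ≠ 0 ∧ x - B ≠ 0 := by
  refine ⟨?_, ?_, ?_⟩ <;> intro h0 <;> rw [h0] at h <;> simp at h <;> exact hy h

theorem tr1 {A B x y : ℚ} (hA : A ≠ 0) (hB : B ≠ 0) (hy : y ≠ 0)
    (h : y ^ 2 = x * (x - A) * (x - B)) :
    Rel A B x y (A * B / x) (A * B * y / x ^ 2) ∧ A * B / x - A = -(A * (x - B)) / x ∧
      A * B / x - B = -(B * (x - A)) / x := by
  obtain ⟨h0, -, -⟩ := ne_of hy h
  refine ⟨⟨by positivity, ?_, ?_⟩, ?_, ?_⟩
  · field_simp
    rw [h]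
    ring
  · field_simp
    ring
  · field_simp
    ring
  · field_simp
    ring

theorem tr2 {A B x y : ℚ} (hA : A ≠ 0) (hAB : A - B ≠ 0) (hy : y ≠ 0)
    (h : y ^ 2 = x * (x - A) * (x - B)) :
    Rel A B x y (A * (x - B) / (x - A)) (A * (A - B) * y / (x - A) ^ 2) ∧
      A * (x - B) / (x - A) - A = A * (A - B) / (x - A) ∧
      A * (x - B) / (x - A) - B = (A - B) * x / (x - A) := by
  obtain ⟨-, h0, -⟩ := ne_of hy h
  have e1 : A * (x - B) / (x - A) - A = A * (A - B) / (x - A) := by field_simp; ring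
  have e2 : A * (x - B) / (x - A) - B = (A - B) * x / (x - A) := by field_simp; ring
  refine ⟨⟨by positivity, ?_, ?_⟩, e1, e2⟩
  · rw [e1, e2]
    field_simp
    rw [h]
  · have e3 : (A * (x - B) / (x - A)) ^ 2 - A * B = A * (A - B) * (x ^ 2 - A * B) / (x - A) ^ 2 := by
      field_simp
      ring
    rw [e3]
    field_simp

theorem tr3 {A B x y : ℚ} (hB : B ≠ 0) (hAB : A - B ≠ 0) (hy : y ≠ 0)
    (h : y ^ 2 = x * (x - A) * (x - B)) :
    Rel A B x y (B * (x - A) / (x - B)) (B * (A - B) * y / (x - B) ^ 2) ∧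
      B * (x - A) / (x - B) - A = -((A - B) * x) / (x - B) ∧
      B * (x - A) / (x - B) - B = -(B * (A - B)) / (x - B) := by
  obtain ⟨-, -, h0⟩ := ne_of hy h
  have e1 : B * (x - A) / (x - B) - A = -((A - B) * x) / (x - B) := by field_simp; ring
  have e2 : B * (x - A) / (x - B) - B = -(B * (A - B)) / (x - B) := by field_simp; ring
  refine ⟨⟨by positivity, ?_, ?_⟩, e1, e2⟩
  · rw [e1, e2]
    field_simp
    rw [h]; ring
  · have e3 : (B * (x - A) / (x - B)) ^ 2 - A * B = B * (B - A) * (x ^ 2 - A * B) / (x - B) ^ 2 := by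
      field_simp
      ring
    rw [e3]
    field_simp
    ring

/-! ### Ascent -/

section
variable {p : ℕ} [Fact p.Prime]

theorem v_sub {a b : ℚ} (ha : a ≠ 0) (hb : b ≠ 0) (hab : a - b ≠ 0)
    (h : padicValRat p a < padicValRat p b) : padicValRat p (a - b) = padicValRat p a := by
  rw [sub_eq_add_neg] at hab ⊢
  exact padicValRat.add_eq_of_lt hab ha (neg_ne_zero.2 hb) (by rwa [padicValRat.neg])

theorem v_sub_le {a b : ℚ} {k : ℤ} (hab : a - b ≠ 0) (h1 : k ≤ padicValRat p a)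
    (h2 : k ≤ padicValRat p b) : k ≤ padicValRat p (a - b) := by
  rw [sub_eq_add_neg] at hab ⊢
  have := padicValRat.min_le_padicValRat_add (p := p) hab
  rw [padicValRat.neg] at this
  exact (le_min h1 h2).trans this

theorem v_sq (a : ℚ) : padicValRat p (a ^ 2) = 2 * padicValRat p a := by
  rw [padicValRat.pow]
  push_cast
  ring

end

instance fact2 : Fact (Nat.Prime 2) := ⟨Nat.prime_two⟩

theorem v_two : padicValRat 2 (2 : ℚ) = 1 := by
  have := padicValRat.self (p := 2) (by norm_num)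
  exact_mod_cast this

/-- if all three are squares then `x` is not integral at `2` -/
theorem neg_val {A B x : ℚ} (hx : x ≠ 0) (hxB : x - B ≠ 0) (hB0 : B ≠ 0)
    (hB : padicValRat 2 B = 1) (h : Good A B x) : padicValRat 2 x < 0 := by
  by_contra h0
  push Not at h0
  obtain ⟨u1, u2, u3, h1, h2, h3⟩ := h
  have hu3 : u3 ≠ 0 := by
    rintro rfl
    apply hxB
    rw [h3]
    ring
  have hv3 : 0 ≤ padicValRat 2 u3 := by
    have h4 : (0 : ℤ) ≤ padicValRat 2 (x - B) := v_sub_le hxB h0 (by omega)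
    rw [h3, v_sq] at h4
    omega
  set s := u1 - u3 with hs
  set t := u1 + u3 with ht
  have hst : s * t = B := by rw [hs, ht]; linear_combination h3 - h1
  have hs0 : s ≠ 0 := fun h => hB0 (by rw [← hst, h, zero_mul])
  have ht0 : t ≠ 0 := fun h => hB0 (by rw [← hst, h, mul_zero])
  have h5 : padicValRat 2 s + padicValRat 2 t = 1 := by
    rw [← padicValRat.mul hs0 ht0, hst, hB]
  have h2u : (2 * u3 : ℚ) ≠ 0 := mul_ne_zero two_ne_zero hu3
  have h6 : 1 ≤ padicValRat 2 (2 * u3) := by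
    rw [padicValRat.mul two_ne_zero hu3, v_two]
    omega
  have e1 : s = t - 2 * u3 := by rw [hs, ht]; ring
  by_cases h7 : padicValRat 2 t < 1
  · have h8 : padicValRat 2 s = padicValRat 2 t := by
      rw [e1]
      exact v_sub ht0 h2u (by rw [← e1]; exact hs0) (by omega)
    omega
  · have h8 : 1 ≤ padicValRat 2 s := by
      rw [e1]
      exact v_sub_le (by rw [← e1]; exact hs0) (by omega) h6
    omega

/-- doubling decreases the valuation by two -/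
theorem dbl_val {A B x x0 y0 : ℚ} (hA0 : A ≠ 0) (hB0 : B ≠ 0) (hA : 0 ≤ padicValRat 2 A)
    (hB : 0 ≤ padicValRat 2 B) (hx : x ≠ 0) (hy : y0 ≠ 0) (h : y0 ^ 2 = x0 * (x0 - A) * (x0 - B))
    (hd : x * (4 * y0 ^ 2) = (x0 ^ 2 - A * B) ^ 2) (hv : padicValRat 2 x0 < 0) :
    padicValRat 2 x = padicValRat 2 x0 - 2 := by
  obtain ⟨h1, h2, h3⟩ := ne_of hy h
  have v1 : padicValRat 2 (x0 - A) = padicValRat 2 x0 := v_sub h1 hA0 h2 (by omega)
  have v2 : padicValRat 2 (x0 - B) = padicValRat 2 x0 := v_sub h1 hB0 h3 (by omega)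
  have hAB : A * B ≠ 0 := mul_ne_zero hA0 hB0
  have vAB : 0 ≤ padicValRat 2 (A * B) := by rw [padicValRat.mul hA0 hB0]; omega
  have h4 : x0 ^ 2 - A * B ≠ 0 := by
    intro h4
    rw [h4] at hd
    have : x * (4 * y0 ^ 2) ≠ 0 := by positivity
    apply this
    rw [hd]
    ring
  have v3 : padicValRat 2 (x0 ^ 2 - A * B) = 2 * padicValRat 2 x0 := by
    rw [v_sub (pow_ne_zero 2 h1) hAB h4 (by rw [v_sq]; omega), v_sq]
  have v4 : padicValRat 2 (y0 ^ 2) = 3 * padicValRat 2 x0 := by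
    rw [h, padicValRat.mul (mul_ne_zero h1 h2) h3, padicValRat.mul h1 h2, v1, v2]
    ring
  have v5 : padicValRat 2 (4 : ℚ) = 2 := by
    rw [show (4 : ℚ) = 2 ^ 2 by norm_num, v_sq, v_two]
    norm_num
  have v6 := congrArg (padicValRat 2) hd
  rw [v_sq, v3, padicValRat.mul hx (by positivity), padicValRat.mul (by norm_num) (by positivity),
    v4, v5] at v6
  linarith

/-- the ascent -/
theorem ascent {A B : ℚ} (hA0 : A ≠ 0) (hB0 : B ≠ 0) (hAB : A ≠ B) (hA : 0 ≤ padicValRat 2 A)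
    (hB : padicValRat 2 B = 1)
    (step : ∀ x y : ℚ, y ≠ 0 → y ^ 2 = x * (x - A) * (x - B) →
      ∃ x' y', Rel A B x y x' y' ∧ Good A B x') :
    ∀ x y : ℚ, y ^ 2 = x * (x - A) * (x - B) → y = 0 := by
  have main : ∀ n : ℕ, ∀ x y : ℚ, y ≠ 0 → y ^ 2 = x * (x - A) * (x - B) → Good A B x →
      -(n : ℤ) ≤ padicValRat 2 x → False := by
    intro n
    induction n with
    | zero =>
      intro x y hy h hg hn
      obtain ⟨h1, -, h3⟩ := ne_of hy h
      have := neg_val h1 h3 hB0 hB hg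
      push_cast at hn
      omega
    | succ n ih =>
      intro x y hy h hg hn
      obtain ⟨h1, -, -⟩ := ne_of hy h
      obtain ⟨x0, y0, e1, e2, e3⟩ := halve hg
      have hy0 := e3 hA0 hB0 hAB
      obtain ⟨x', y', ⟨f1, f2, f3⟩, f4⟩ := step x0 y0 hy0 e1
      obtain ⟨g1, g2, g3⟩ := ne_of f1 f2
      have hv := neg_val g1 g3 hB0 hB f4
      have e2' : x * (4 * y' ^ 2) = (x' ^ 2 - A * B) ^ 2 := by
        have h5 : y0 ^ 2 * (x * (4 * y' ^ 2)) = y0 ^ 2 * (x' ^ 2 - A * B) ^ 2 := by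
          linear_combination y' ^ 2 * e2 - f3
        exact mul_left_cancel₀ (pow_ne_zero 2 hy0) h5
      have hv' := dbl_val hA0 hB0 hA (by omega) h1 f1 f2 e2' hv
      refine ih x' y' f1 f2 f4 ?_
      push_cast at hn
      omega
  intro x y h
  by_contra hy
  obtain ⟨x', y', ⟨f1, f2, f3⟩, f4⟩ := step x y hy h
  exact main (padicValRat 2 x').natAbs x' y' f1 f2 f4 (by omega)

/-! ### Integral data -/

theorem rat_sq_int {n : ℤ} {y : ℚ} (h : y ^ 2 = n) : ∃ m : ℤ, (m : ℚ) = y ∧ m ^ 2 = n := by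
  have h1 : IsSquare (n : ℚ) := ⟨y, by rw [← h, pow_two]⟩
  rw [Rat.isSquare_intCast_iff] at h1
  obtain ⟨m, hm⟩ := h1
  have h2 : y ^ 2 = (m : ℚ) ^ 2 := by rw [h, hm]; push_cast; ring
  rcases sq_eq_sq_iff_eq_or_eq_neg.1 h2 with h3 | h3
  · exact ⟨m, h3.symm, by rw [hm, pow_two]⟩
  · exact ⟨-m, by rw [h3]; push_cast; ring, by rw [hm]; ring⟩

theorem intData (A B : ℤ) {x y : ℚ} (hy : y ≠ 0) (h : y ^ 2 = x * (x - A) * (x - B)) :
    ∃ X Z d1 d2 d3 u w v : ℤ, Z ≠ 0 ∧ x = X / Z ^ 2 ∧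
      Pt X (X - A * Z ^ 2) (X - B * Z ^ 2) A B Z d1 d2 d3 u w v ∧ u ≠ 0 ∧ w ≠ 0 ∧ v ≠ 0 := by
  obtain ⟨h1, h2, h3⟩ := ne_of hy h
  set m : ℤ := x.num with hm
  set n : ℤ := ((x.den : ℕ) : ℤ) with hn
  have hn0 : (0 : ℤ) < n := by rw [hn]; exact_mod_cast x.den_pos
  have hxe : x = (m : ℚ) / n := by rw [hm, hn]; exact_mod_cast (Rat.num_div_den x).symm
  have hco : IsCoprime m n := by
    rw [hm, hn, Int.isCoprime_iff_nat_coprime]
    simpa using x.reduced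
  have hnQ : (n : ℚ) ≠ 0 := by exact_mod_cast hn0.ne'
  have e1 : ((n : ℚ) ^ 2 * y) ^ 2 = ((n * (m * (m - A * n) * (m - B * n)) : ℤ) : ℚ) := by
    rw [mul_pow, h, hxe]
    push_cast
    field_simp
  obtain ⟨s, -, hs⟩ := rat_sq_int e1
  have hc2 : IsCoprime n (m * (m - A * n) * (m - B * n)) := by
    refine IsCoprime.mul_right (IsCoprime.mul_right hco.symm ?_) ?_
    · have : m - A * n = m + n * (-A) := by ring
      rw [this]
      exact IsCoprime.add_mul_left_right hco.symm _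
    · have : m - B * n = m + n * (-B) := by ring
      rw [this]
      exact IsCoprime.add_mul_left_right hco.symm _
  obtain ⟨Z, hZ⟩ := Int.sq_of_isCoprime hc2 hs.symm
  have hZ' : n = Z ^ 2 := by
    rcases hZ with h4 | h4
    · exact h4
    · exfalso
      have := sq_nonneg Z
      omega
  have hZ0 : Z ≠ 0 := by
    rintro rfl
    rw [hZ'] at hn0
    norm_num at hn0
  have hcoZ : IsCoprime m Z := by
    rw [hZ'] at hco
    exact (IsCoprime.pow_right_iff (by norm_num)).1 hco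
  have hZQ : (Z : ℚ) ≠ 0 := by exact_mod_cast hZ0
  have hxZ : x = (m : ℚ) / (Z : ℚ) ^ 2 := by rw [hxe, hZ']; push_cast; rfl
  have a1 : m ≠ 0 := by
    intro h0
    apply h1
    rw [hxZ, h0]
    simp
  have a2 : m - A * Z ^ 2 ≠ 0 := by
    intro h0
    apply h2
    have : (m : ℚ) = A * (Z : ℚ) ^ 2 := by exact_mod_cast sub_eq_zero.1 h0
    rw [hxZ, this]
    field_simp
    ring
  have a3 : m - B * Z ^ 2 ≠ 0 := by
    intro h0
    apply h3
    have : (m : ℚ) = B * (Z : ℚ) ^ 2 := by exact_mod_cast sub_eq_zero.1 h0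
    rw [hxZ, this]
    field_simp
    ring
  obtain ⟨d1, u, b1, c1, g1⟩ := exists_sqf m a1
  obtain ⟨d2, w, b2, c2, g2⟩ := exists_sqf _ a2
  obtain ⟨d3, v, b3, c3, g3⟩ := exists_sqf _ a3
  have e2 : ((Z : ℚ) ^ 3 * y / (u * w * v)) ^ 2 = ((d1 * d2 * d3 : ℤ) : ℚ) := by
    have g1' : (u : ℚ) ≠ 0 := by exact_mod_cast g1
    have g2' : (w : ℚ) ≠ 0 := by exact_mod_cast g2
    have g3' : (v : ℚ) ≠ 0 := by exact_mod_cast g3
    have f1 : x = d1 * (u : ℚ) ^ 2 / (Z : ℚ) ^ 2 := by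
      rw [hxZ]
      congr 1
      exact_mod_cast b1
    have f2 : x - A = d2 * (w : ℚ) ^ 2 / (Z : ℚ) ^ 2 := by
      have : (m : ℚ) - A * (Z : ℚ) ^ 2 = d2 * (w : ℚ) ^ 2 := by exact_mod_cast b2
      rw [hxZ, ← this]
      field_simp
    have f3 : x - B = d3 * (v : ℚ) ^ 2 / (Z : ℚ) ^ 2 := by
      have : (m : ℚ) - B * (Z : ℚ) ^ 2 = d3 * (v : ℚ) ^ 2 := by exact_mod_cast b3
      rw [hxZ, ← this]
      field_simp
    have h' : y ^ 2 = d1 * (u : ℚ) ^ 2 / (Z : ℚ) ^ 2 * (d2 * (w : ℚ) ^ 2 / (Z : ℚ) ^ 2) *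
        (d3 * (v : ℚ) ^ 2 / (Z : ℚ) ^ 2) := by
      rw [h, f2, f3, ← f1]
    rw [div_pow, mul_pow, h']
    push_cast
    field_simp
  obtain ⟨t, -, ht⟩ := rat_sq_int e2
  refine ⟨m, Z, d1, d2, d3, u, w, v, hZ0, hxZ, ⟨⟨c1, c2, c3, t, ht.symm⟩, b1, b2, b3, by ring,
    by ring, hcoZ⟩, g1, g2, g3⟩

theorem not_dvd_of_even {p : ℕ} [Fact p.Prime] {d u Z : ℤ} {x : ℚ} (hd : Squarefree d)
    (hu : u ≠ 0) (hZ : Z ≠ 0) (hx : x = d * (u : ℚ) ^ 2 / (Z : ℚ) ^ 2)
    (he : Even (padicValRat p x)) : ¬ (p : ℤ) ∣ d := by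
  rintro ⟨k, hk⟩
  have hp : Prime (p : ℤ) := Nat.prime_iff_prime_int.1 (Fact.out)
  have hk0 : k ≠ 0 := by
    rintro rfl
    rw [mul_zero] at hk
    exact hd.ne_zero hk
  have hkp : ¬ (p : ℤ) ∣ k := fun h => sq_not_dvd hd hp (by
    rw [hk, pow_two]
    exact mul_dvd_mul_left _ h)
  have hpQ : (p : ℚ) ≠ 0 := by
    have : (p : ℤ) ≠ 0 := hp.ne_zero
    exact_mod_cast this
  have hkQ : (k : ℚ) ≠ 0 := by exact_mod_cast hk0
  have huQ : (u : ℚ) ≠ 0 := by exact_mod_cast hu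
  have hZQ : (Z : ℚ) ≠ 0 := by exact_mod_cast hZ
  have e : x = p * (k * ((u : ℚ) / Z) ^ 2) := by
    rw [hx, hk]
    push_cast
    field_simp
  have hp1 : 1 < p := (Fact.out : p.Prime).one_lt
  have v1 : padicValRat p x = 1 + (0 + 2 * padicValRat p ((u : ℚ) / Z)) := by
    rw [e, padicValRat.mul hpQ (by positivity), padicValRat.mul hkQ (by positivity), v_sq,
      padicValRat.self hp1, padicValRat.of_int, padicValInt.eq_zero_of_not_dvd hkp]
    norm_num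
  rw [v1] at he
  rcases he with ⟨j, hj⟩
  omega

/-- the statement about classes -/
def Core (A B : ℤ) (p : ℕ) : Prop :=
  ∀ X G H Z d1 d2 d3 u w v : ℤ, Pt X G H A B Z d1 d2 d3 u w v → 0 < d1 → ¬ (p : ℤ) ∣ d1 →
    ¬ (p : ℤ) ∣ d2 → ¬ (p : ℤ) ∣ d3 → d1 = 1 ∧ d2 = 1 ∧ d3 = 1

theorem good_of_core {A B : ℤ} {p : ℕ} [Fact p.Prime] (hc : Core A B p) (hA : 0 < A)
    (hAB : A < B) {x y : ℚ} (hy : y ≠ 0) (h : y ^ 2 = x * (x - A) * (x - B))
    (h1 : Even (padicValRat p x)) (h2 : Even (padicValRat p (x - A)))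
    (h3 : Even (padicValRat p (x - B))) : Good A B x := by
  obtain ⟨X, Z, d1, d2, d3, u, w, v, hZ, hx, hP, hu, hw, hv⟩ := intData A B hy h
  have hZQ : (Z : ℚ) ≠ 0 := by exact_mod_cast hZ
  have huQ : (u : ℚ) ≠ 0 := by exact_mod_cast hu
  have f1 : x = d1 * (u : ℚ) ^ 2 / (Z : ℚ) ^ 2 := by
    rw [hx]
    congr 1
    exact_mod_cast hP.f
  have f2 : x - A = d2 * (w : ℚ) ^ 2 / (Z : ℚ) ^ 2 := by
    have : (X : ℚ) - A * (Z : ℚ) ^ 2 = d2 * (w : ℚ) ^ 2 := by exact_mod_cast hP.g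
    rw [hx, ← this]
    field_simp
  have f3 : x - B = d3 * (v : ℚ) ^ 2 / (Z : ℚ) ^ 2 := by
    have : (X : ℚ) - B * (Z : ℚ) ^ 2 = d3 * (v : ℚ) ^ 2 := by exact_mod_cast hP.h
    rw [hx, ← this]
    field_simp
  have hAQ : (0 : ℚ) < A := by exact_mod_cast hA
  have hABQ : (A : ℚ) < B := by exact_mod_cast hAB
  have hxpos : 0 < x := by
    by_contra h0
    push Not at h0
    have h5 : 0 < y ^ 2 := by positivity
    have h6 : x * (x - A) * (x - B) ≤ 0 := by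
      have h7 : 0 ≤ x * (x - A) := mul_nonneg_of_nonpos_of_nonpos h0 (by linarith)
      exact mul_nonpos_of_nonneg_of_nonpos h7 (by linarith)
    linarith
  have hd1 : 0 < d1 := by
    rw [f1] at hxpos
    have h5 : (0 : ℚ) < (u : ℚ) ^ 2 / (Z : ℚ) ^ 2 := by positivity
    have h6 : (d1 : ℚ) * (u : ℚ) ^ 2 / (Z : ℚ) ^ 2 = d1 * ((u : ℚ) ^ 2 / (Z : ℚ) ^ 2) := by ring
    rw [h6] at hxpos
    have h7 := (mul_pos_iff_of_pos_right h5).1 hxpos
    exact_mod_cast h7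
  obtain ⟨k1, k2, k3⟩ := hc X _ _ Z d1 d2 d3 u w v hP hd1
    (not_dvd_of_even hP.t.s1 hu hZ f1 h1) (not_dvd_of_even hP.t.s2 hw hZ f2 h2)
    (not_dvd_of_even hP.t.s3 hv hZ f3 h3)
  refine ⟨u / Z, w / Z, v / Z, ?_, ?_, ?_⟩
  · rw [f1, k1]; push_cast; ring
  · rw [f2, k2]; push_cast; ring
  · rw [f3, k3]; push_cast; ring

/-- the general theorem -/
theorem no_points {A B : ℤ} {p : ℕ} [Fact p.Prime] (hc : Core A B p) (hA : 0 < A) (hAB : A < B)
    (hA2 : 0 ≤ padicValRat 2 (A : ℚ)) (hB2 : padicValRat 2 (B : ℚ) = 1)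
    (vA : Even (padicValRat p (A : ℚ))) (vB : ¬ Even (padicValRat p (B : ℚ)))
    (vAB : ¬ Even (padicValRat p ((A : ℚ) - B))) :
    ∀ x y : ℚ, y ^ 2 = x * (x - A) * (x - B) → y = 0 := by
  have hAQ : (A : ℚ) ≠ 0 := by exact_mod_cast hA.ne'
  have hBQ : (B : ℚ) ≠ 0 := by exact_mod_cast (hA.trans hAB).ne'
  have hABQ : (A : ℚ) ≠ B := by exact_mod_cast hAB.ne
  have hABQ' : (A : ℚ) - B ≠ 0 := sub_ne_zero.2 hABQ
  refine ascent hAQ hBQ hABQ hA2 hB2 fun x y hy h => ?_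
  obtain ⟨h1, h2, h3⟩ := ne_of hy h
  have hsum : padicValRat p x + padicValRat p (x - A) + padicValRat p (x - B) =
      2 * padicValRat p y := by
    rw [← v_sq, h, padicValRat.mul (mul_ne_zero h1 h2) h3, padicValRat.mul h1 h2]
  rw [Int.even_iff] at vA
  rw [Int.even_iff] at vB vAB
  by_cases e1 : padicValRat p x % 2 = 0
  · by_cases e2 : padicValRat p (x - A) % 2 = 0
    · refine ⟨x, y, ⟨hy, h, rfl⟩, good_of_core hc hA hAB hy h ?_ ?_ ?_⟩ <;> rw [Int.even_iff] <;>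
        omega
    · obtain ⟨hr, g1, g2⟩ := tr2 hAQ hABQ' hy h
      refine ⟨_, _, hr, good_of_core hc hA hAB hr.1 hr.2.1 ?_ ?_ ?_⟩
      · rw [Int.even_iff, padicValRat.div (mul_ne_zero hAQ h3) h2, padicValRat.mul hAQ h3]
        omega
      · rw [g1, Int.even_iff, padicValRat.div (mul_ne_zero hAQ hABQ') h2,
          padicValRat.mul hAQ hABQ']
        omega
      · rw [g2, Int.even_iff, padicValRat.div (mul_ne_zero hABQ' h1) h2,
          padicValRat.mul hABQ' h1]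
        omega
  · by_cases e2 : padicValRat p (x - A) % 2 = 0
    · obtain ⟨hr, g1, g2⟩ := tr1 hAQ hBQ hy h
      refine ⟨_, _, hr, good_of_core hc hA hAB hr.1 hr.2.1 ?_ ?_ ?_⟩
      · rw [Int.even_iff, padicValRat.div (mul_ne_zero hAQ hBQ) h1, padicValRat.mul hAQ hBQ]
        omega
      · rw [g1, Int.even_iff, padicValRat.div (neg_ne_zero.2 (mul_ne_zero hAQ h3)) h1,
          padicValRat.neg, padicValRat.mul hAQ h3]
        omega
      · rw [g2, Int.even_iff, padicValRat.div (neg_ne_zero.2 (mul_ne_zero hBQ h2)) h1,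
          padicValRat.neg, padicValRat.mul hBQ h2]
        omega
    · obtain ⟨hr, g1, g2⟩ := tr3 hBQ hABQ' hy h
      refine ⟨_, _, hr, good_of_core hc hA hAB hr.1 hr.2.1 ?_ ?_ ?_⟩
      · rw [Int.even_iff, padicValRat.div (mul_ne_zero hBQ h2) h3, padicValRat.mul hBQ h2]
        omega
      · rw [g1, Int.even_iff, padicValRat.div (neg_ne_zero.2 (mul_ne_zero hABQ' h1)) h3,
          padicValRat.neg, padicValRat.mul hABQ' h1]
        omega
      · rw [g2, Int.even_iff, padicValRat.div (neg_ne_zero.2 (mul_ne_zero hBQ hABQ')) h3,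
          padicValRat.neg, padicValRat.mul hBQ hABQ']
        omega

end Pool.Agent.LEG
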